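import Mathlib
import Pool.Agent.Q324.SC.CubesMain

/-!
# Generating sets and ranks of `X³ + Y³ = A`: few errors suffice

There is an algorithm that finds generating sets of `C_A(ℚ)` for all `A` if (and only if) there is
one that finds them with at most `X ^ θ` exceptions up to `X`, for some `θ < 1 / 3`; the same for the
least number of generators. The reason: the curves for `A` and `A n³` are isomorphic over `ℚ`.
-/

set_option autoImplicit false

namespace Pool.Agent.Results.MP_8e0b0b_nt.AllCurvesFromMost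

open Pool.Agent.Q324.SC.Cub

/-- (1) Q1: generating sets of `C_A(ℚ)` are computable for all `A ≠ 0` if and only if, for some
`p / q < 1 / 3` (equivalently: for every `p / q < 1 / 3`), there is a computable function that gives
them with `E` exceptions in `[-X, X]`, where `E ^ q ≤ K X ^ p` for a constant `K`.
(2) Q2: the same for the least size of a generating set.
(3), (4) More precisely, it is enough that for some computable `N` the number of the exceptions in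
`[-a N(a)³, a N(a)³]` is less than `N(a)` (respectively `N(a) / 2`) for all `a ≥ 1`. -/
theorem result :
    (∀ p q : ℕ, 3 * p < q →
      ((∃ g : ℤ → List V3, Computable g ∧ ∀ A : ℤ, A ≠ 0 → Generates A (g A)) ↔
        ∃ (f : ℤ → List V3) (K : ℕ), Computable f ∧
          ∀ X : ℕ, {A : ℤ | A ≠ 0 ∧ |A| ≤ X ∧ ¬ Generates A (f A)}.encard ^ q
            ≤ ((K * X ^ p : ℕ) : ℕ∞))) ∧
    (∀ p q : ℕ, 3 * p < q →
      ((∃ g : ℤ → ℕ, Computable g ∧ ∀ A : ℤ, A ≠ 0 → IsRank A (g A)) ↔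
        ∃ (f : ℤ → ℕ) (K : ℕ), Computable f ∧
          ∀ X : ℕ, {A : ℤ | A ≠ 0 ∧ |A| ≤ X ∧ ¬ IsRank A (f A)}.encard ^ q
            ≤ ((K * X ^ p : ℕ) : ℕ∞))) ∧
    (∀ (f : ℤ → List V3) (N : ℕ → ℕ), Computable f → Computable N →
      (∀ a : ℕ, 1 ≤ a → {A : ℤ | A ≠ 0 ∧ |A| ≤ (a * N a ^ 3 : ℕ) ∧ ¬ Generates A (f A)}.encard
        < (N a : ℕ∞)) →
      ∃ g : ℤ → List V3, Computable g ∧ ∀ A : ℤ, A ≠ 0 → Generates A (g A)) ∧
    (∀ (f : ℤ → ℕ) (N : ℕ → ℕ), Computable f → Computable N →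
      (∀ a : ℕ, 1 ≤ a → 2 * {A : ℤ | A ≠ 0 ∧ |A| ≤ (a * N a ^ 3 : ℕ) ∧ ¬ IsRank A (f A)}.encard
        < (N a : ℕ∞)) →
      ∃ g : ℤ → ℕ, Computable g ∧ ∀ A : ℤ, A ≠ 0 → IsRank A (g A)) := by
  have hN : ∀ K p q : ℕ, Computable (fun a : ℕ => 2 ^ q * K * a ^ p + 1) := by
    intro K p q
    have : Primrec (fun a : ℕ => 2 ^ q * K * a ^ p + 1) := by fun_prop
    exact this.to_comp
  have key : ∀ {p q K : ℕ} (_ : 3 * p < q) (S : ℕ → Set ℤ),
      (∀ X : ℕ, (S X).encard ^ q ≤ ((K * X ^ p : ℕ) : ℕ∞)) →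
      ∀ a : ℕ, 2 * (S (a * (2 ^ q * K * a ^ p + 1) ^ 3)).encard
        < ((2 ^ q * K * a ^ p + 1 : ℕ) : ℕ∞) := by
    intro p q K hpq S h a
    have h1 := h (a * (2 ^ q * K * a ^ p + 1) ^ 3)
    obtain ⟨E, hE⟩ : ∃ E, E = (S (a * (2 ^ q * K * a ^ p + 1) ^ 3)).encard := ⟨_, rfl⟩
    rw [← hE] at h1 ⊢
    have hEt : E ≠ ⊤ := by
      rintro rfl
      rw [ENat.top_pow (by omega)] at h1
      exact absurd h1 (not_le.2 (ENat.natCast_lt_top _))
    lift E to ℕ using hEt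
    have h2 : E ^ q ≤ K * (a * (2 ^ q * K * a ^ p + 1) ^ 3) ^ p := by exact_mod_cast h1
    exact_mod_cast num hpq rfl h2
  refine ⟨fun p q hpq => ⟨?_, ?_⟩, fun p q hpq => ⟨?_, ?_⟩, ?_, ?_⟩
  · rintro ⟨g, hg, h⟩
    refine ⟨g, 0, hg, fun X => ?_⟩
    have h1 : {A : ℤ | A ≠ 0 ∧ |A| ≤ X ∧ ¬ Generates A (g A)} = ∅ := by
      ext A
      simp only [Set.mem_setOf_eq, Set.mem_empty_iff_false, iff_false]
      rintro ⟨h1, _, h2⟩
      exact h2 (h A h1)
    rw [h1, Set.encard_empty, zero_pow (by omega)]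
    exact zero_le
  · rintro ⟨f, K, hf, h⟩
    refine gens_correct hf (hN K p q) fun a _ => ?_
    have h1 := key hpq (fun X : ℕ => {A : ℤ | A ≠ 0 ∧ |A| ≤ X ∧ ¬ Generates A (f A)}) h a
    refine lt_of_le_of_lt ?_ h1
    exact le_mul_of_one_le_left (zero_le) (by norm_num)
  · rintro ⟨g, hg, h⟩
    refine ⟨g, 0, hg, fun X => ?_⟩
    have h1 : {A : ℤ | A ≠ 0 ∧ |A| ≤ X ∧ ¬ IsRank A (g A)} = ∅ := by
      ext A
      simp only [Set.mem_setOf_eq, Set.mem_empty_iff_false, iff_false]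
      rintro ⟨h1, _, h2⟩
      exact h2 (h A h1)
    rw [h1, Set.encard_empty, zero_pow (by omega)]
    exact zero_le
  · rintro ⟨f, K, hf, h⟩
    exact rank_correct hf (hN K p q) fun a _ =>
      key hpq (fun X : ℕ => {A : ℤ | A ≠ 0 ∧ |A| ≤ X ∧ ¬ IsRank A (f A)}) h a
  · intro f N hf hN h
    exact gens_correct hf hN h
  · intro f N hf hN h
    exact rank_correct hf hN h

end Pool.Agent.Results.MP_8e0b0b_nt.AllCurvesFromMost
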