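import Pool.Agent.Q243.CU.Asc
import Pool.Agent.Q243.CU.Comp
import Pool.Agent.Y703.CT.T1d
import Pool.Agent.Y703.CX.Fin

/-!
# A primitive recursive test which proves that `X³ + Y³ = A` has no rational points

There is a primitive recursive set `P` of numbers `A` such that `C_A(ℚ) = {O}` for all `A` in `P` (so
that the empty set generates, and `r(A) = 0`), and which contains exactly the proportion
`∏_{i ≥ 1} (1 - 3^{-i}) = 0.5601...` of the squarefree numbers `A` prime to `3`, not `±1` modulo `9`, with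
exactly one prime factor `2` modulo `3` and any number of prime factors `1` modulo `3`. Within this
class the test succeeds if and only if the curve `E_A : y² + A y = x³` (which is `3`-isogenous to
`C_A`) has only finitely many rational points and the `3`-part of its Tate-Shafarevich group is trivial.

The criterion and the proportion are the starting theorem `CubicTwistsExactProportion`
(MP_696deb_nt, library `Pool.Agent.Y703.CT`, `Pool.Agent.Y703.CX`); here: the test is primitive
recursive, and finiteness of `E_A(ℚ)` implies that `C_A` has no rational points besides `O` (infinite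
ascent by doubling).
-/

set_option autoImplicit false

open scoped Classical

namespace Pool.Agent.Results.MP_8e0b0b_nt.TestForNoPoints

/-- `C_A(ℚ)` consists of the point at infinity `O` only; so the empty set is a generating set and
`r(A) = 0` -/
def OnlyInfinity (A : ℕ) : Prop := ∀ X Y : ℚ, X ^ 3 + Y ^ 3 ≠ A

/-- `A` is cube-free, prime to `3`, not `±1` modulo `9`, and exactly one of its prime factors is
congruent to `2` modulo `3` -/
def Class (A : ℕ) : Prop := (A ≠ 0 ∧ ¬ 3 ∣ A ∧ ∀ p : ℕ, p.Prime → ¬ p ^ 3 ∣ A) ∧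
  A % 9 ≠ 1 ∧ A % 9 ≠ 8 ∧
  ∃ q : ℕ, q.Prime ∧ q % 3 = 2 ∧ q ∣ A ∧ ∀ p : ℕ, p.Prime → p ∣ A → p ≠ q → p % 3 = 1

/-- the curve `E_A : y² + A y = x³` over `ℚ` -/
def E (A : ℕ) : WeierstrassCurve ℚ := { a₁ := 0, a₂ := 0, a₃ := (A : ℚ), a₄ := 0, a₆ := 0 }

/-- `E_A(ℚ)` is finite and `Ш(E_A/ℚ)[3^∞] = 0` -/
def TrivialThree (A : ℕ) : Prop :=
  Finite (E A).toAffine.Point ∧
    ∀ (n : ℕ) (x : Pool.Agent.TH841.SH.D.Sha (E A)), 3 ^ n • x = 0 → x = 0

theorem E_eq (A : ℕ) : Pool.Agent.Y703.CT.EQ (Pool.Agent.Y703.CT.WD A) = E A := by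
  unfold Pool.Agent.Y703.CT.EQ Pool.Agent.Y703.CT.WD E WeierstrassCurve.map
  simp

theorem three_iff (A : ℕ) : TrivialThree A ↔ Pool.Agent.Y703.CT.Triv3 A := by
  unfold TrivialThree Pool.Agent.Y703.CT.Triv3
  rw [E_eq]

/-- the test: `A` is in the class, different from `2`, and satisfies the condition `NoSplit` -/
def Test (A : ℕ) : Prop :=
  Pool.Agent.Q243.CU.Cls A ∧ Pool.Agent.Q243.CU.NoSplit A ∧ A ≠ 2

/-- **Theorem.** There is a primitive recursive set `P` of natural numbers such that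
(1) `C_A(ℚ) = {O}` for all `A` in `P`;
(2) for every `A ≠ 2` in the class, `A` is in `P` if and only if `E_A(ℚ)` is finite and
`Ш(E_A/ℚ)[3^∞] = 0`;
(3) the proportion of the members of `P` among the squarefree `A ≤ X` of the class tends to
`∏_{i ≥ 1} (1 - 3^{-i}) > 0.56`;
(4) `P` has at least `c X / (log X)^{1/2}` members up to `X`, for some `c > 0` and all large `X`. -/
theorem result : ∃ P : ℕ → Prop, PrimrecPred P ∧
    (∀ A, P A → OnlyInfinity A) ∧
    (∀ A, Class A → A ≠ 2 → (P A ↔ TrivialThree A)) ∧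
    Filter.Tendsto (fun X : ℕ =>
        (((Finset.Icc 1 X).filter fun A => Squarefree A ∧ Class A ∧ P A).card : ℝ) /
        (((Finset.Icc 1 X).filter fun A => Squarefree A ∧ Class A).card : ℝ)) Filter.atTop
      (nhds (∏' i : ℕ, (1 - (1 / 3 : ℝ) ^ (i + 1)))) ∧
    (0.56 : ℝ) < ∏' i : ℕ, (1 - (1 / 3 : ℝ) ^ (i + 1)) ∧
    ∃ c : ℝ, 0 < c ∧ ∃ X₀ : ℕ, ∀ X : ℕ, X₀ ≤ X →
      c * X / Real.sqrt (Real.log X) ≤ (((Finset.Icc 1 X).filter fun A => P A).card : ℝ) := by
  have hcls : ∀ A, Class A ↔ Pool.Agent.Y703.CT.Cls A := fun A => Iff.rfl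
  have hcls' : ∀ A, Class A ↔ Pool.Agent.Q243.CU.Cls A := fun A => Iff.rfl
  have hns : ∀ A, Pool.Agent.Q243.CU.NoSplit A ↔ Pool.Agent.Y703.CT.NoSplit A := fun A => Iff.rfl
  have hcrit : ∀ A : ℕ, Class A → (TrivialThree A ↔ Pool.Agent.Y703.CT.NoSplit A) := by
    intro A hC
    obtain ⟨-, f, -, u, -, -, -, h2⟩ := Pool.Agent.Y703.CT.fin_all hC
    exact (three_iff A).trans h2
  have hC3 : Pool.Agent.Y703.CX.S_C3 := Pool.Agent.Y461.CX.t_C3
  have hconst : Pool.Agent.Y703.CX.c3 = ∏' i : ℕ, (1 - (1 / 3 : ℝ) ^ (i + 1)) := rfl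
  -- the proportion
  have hden := Pool.Agent.Y703.CX.t_DEN
  unfold Pool.Agent.Y703.CX.S_DEN at hden
  -- the size of the class
  obtain ⟨c, X₀, hc, hlow⟩ := Pool.Agent.Y461.CX.t_LOW Pool.Agent.Y87.CX.t_MER
    Pool.Agent.Y461.CX.t_CHE
  have hcard : ∀ X : ℕ, (Pool.Agent.Y703.CX.SS X).card =
      ((Finset.Icc 1 X).filter fun D => Squarefree D ∧ Pool.Agent.Y703.CT.Cls D).card := by
    intro X
    have e2 := Pool.Agent.Y710.CX.card_eq X (fun _ => True) (fun _ => True) fun _ _ _ => Iff.rfl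
    rw [Finset.filter_true] at e2
    simp only [and_true] at e2
    exact e2.symm
  have hbig : Filter.Tendsto (fun X : ℕ => c * (X : ℝ) * (Real.log X) ^ (-(1 / 2) : ℝ))
      Filter.atTop Filter.atTop := by
    have h1 : ∀ᶠ X : ℕ in Filter.atTop, c * (X : ℝ) ^ (1 / 2 : ℝ) ≤
        c * (X : ℝ) * (Real.log X) ^ (-(1 / 2) : ℝ) := by
      filter_upwards [Filter.eventually_ge_atTop 3] with X hX
      have hX1 : (3 : ℝ) ≤ X := by exact_mod_cast hX
      have hX0 : (0 : ℝ) < X := by linarith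
      have hl : 0 < Real.log X := Real.log_pos (by linarith)
      have hl2 : Real.log X ≤ X := (Real.log_le_sub_one_of_pos hX0).trans (by linarith)
      have e : (X : ℝ) ^ (1 / 2 : ℝ) = X * (X : ℝ) ^ (-(1 / 2) : ℝ) := by
        nth_rewrite 2 [← Real.rpow_one (X : ℝ)]
        rw [← Real.rpow_add hX0]
        norm_num
      rw [e, ← mul_assoc]
      refine mul_le_mul_of_nonneg_left ?_ (by positivity)
      exact Real.rpow_le_rpow_of_nonpos hl hl2 (by norm_num)
    refine Filter.tendsto_atTop_mono' _ h1 ?_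
    refine Filter.Tendsto.const_mul_atTop hc ?_
    exact (tendsto_rpow_atTop (by norm_num : (0 : ℝ) < 1 / 2)).comp tendsto_natCast_atTop_atTop
  have hclsbig : Filter.Tendsto (fun X : ℕ => (((Finset.Icc 1 X).filter fun D =>
      Squarefree D ∧ Pool.Agent.Y703.CT.Cls D).card : ℝ)) Filter.atTop Filter.atTop := by
    refine Filter.tendsto_atTop_mono' _ ?_ hbig
    filter_upwards [Filter.eventually_ge_atTop X₀] with X hX
    rw [← hcard]
    exact hlow X hX
  -- the effect of the number 2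
  have hdiff : ∀ X : ℕ, (((Finset.Icc 1 X).filter fun D => Squarefree D ∧
      Pool.Agent.Y703.CT.Cls D ∧ Pool.Agent.Y703.CT.NoSplit D).card : ℝ) - 1 ≤
      (((Finset.Icc 1 X).filter fun A => Squarefree A ∧ Class A ∧
        Test A).card : ℝ) := by
    intro X
    have hsub : ((Finset.Icc 1 X).filter fun D => Squarefree D ∧
      Pool.Agent.Y703.CT.Cls D ∧ Pool.Agent.Y703.CT.NoSplit D) ⊆ insert 2
      ((Finset.Icc 1 X).filter fun A => Squarefree A ∧ Class A ∧
        Test A) := by
      intro D hD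
      rw [Finset.mem_filter] at hD
      rw [Finset.mem_insert, Finset.mem_filter]
      by_cases h2 : D = 2
      · exact Or.inl h2
      · exact Or.inr ⟨hD.1, hD.2.1, hD.2.2.1, hD.2.2.1, hD.2.2.2, h2⟩
    have h1 := (Finset.card_le_card hsub).trans (Finset.card_insert_le _ _)
    have h2 : (((Finset.Icc 1 X).filter fun D => Squarefree D ∧
      Pool.Agent.Y703.CT.Cls D ∧ Pool.Agent.Y703.CT.NoSplit D).card : ℝ) ≤
      (((Finset.Icc 1 X).filter fun A => Squarefree A ∧ Class A ∧
        Test A).card : ℝ) + 1 := by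
      exact_mod_cast h1
    linarith
  have hle : ∀ X : ℕ, (((Finset.Icc 1 X).filter fun A => Squarefree A ∧ Class A ∧
        Test A).card : ℝ) ≤
      (((Finset.Icc 1 X).filter fun D => Squarefree D ∧
      Pool.Agent.Y703.CT.Cls D ∧ Pool.Agent.Y703.CT.NoSplit D).card : ℝ) := by
    intro X
    have : ((Finset.Icc 1 X).filter fun A => Squarefree A ∧ Class A ∧
        Test A).card ≤
      ((Finset.Icc 1 X).filter fun D => Squarefree D ∧
      Pool.Agent.Y703.CT.Cls D ∧ Pool.Agent.Y703.CT.NoSplit D).card := by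
      refine Finset.card_le_card fun D hD => ?_
      rw [Finset.mem_filter] at hD ⊢
      exact ⟨hD.1, hD.2.1, hD.2.2.1, hD.2.2.2.2.1⟩
    exact_mod_cast this
  have hten : Filter.Tendsto (fun X : ℕ =>
      (((Finset.Icc 1 X).filter fun A => Squarefree A ∧ Class A ∧
        Test A).card : ℝ) /
      (((Finset.Icc 1 X).filter fun A => Squarefree A ∧ Class A).card : ℝ)) Filter.atTop
      (nhds (∏' i : ℕ, (1 - (1 / 3 : ℝ) ^ (i + 1)))) := by
    have h0 : Filter.Tendsto (fun X : ℕ => (1 : ℝ) / (((Finset.Icc 1 X).filter fun D =>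
      Squarefree D ∧ Pool.Agent.Y703.CT.Cls D).card : ℝ)) Filter.atTop (nhds 0) :=
      Filter.Tendsto.div_atTop tendsto_const_nhds hclsbig
    have h1 := hden.sub h0
    rw [sub_zero] at h1
    refine tendsto_of_tendsto_of_tendsto_of_le_of_le h1 hden (fun X => ?_) (fun X => ?_)
    · have := div_le_div_of_nonneg_right (hdiff X) (Nat.cast_nonneg
        (((Finset.Icc 1 X).filter fun A => Squarefree A ∧ Class A).card) (α := ℝ))
      rw [sub_div] at this
      exact this
    · exact div_le_div_of_nonneg_right (hle X) (Nat.cast_nonneg _)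
  refine ⟨Test,
    Pool.Agent.Q243.CU.test_prim, ?_, ?_, hten, ?_, ?_⟩
  · rintro A ⟨h1, h2, h3⟩
    have h4 : TrivialThree A := (hcrit A h1).2 h2
    have h5 : 2 < A := by
      have a0 : A ≠ 0 := h1.1.1
      have a1 : A ≠ 1 := by
        rintro rfl
        exact h1.2.1 rfl
      omega
    exact fun X Y => Pool.Agent.Q243.CU.no_solution h5 h1.1.2.2 h4.1 X Y
  · intro A hA h2
    rw [hcrit A hA]
    exact ⟨fun h => h.2.1, fun h => ⟨hA, h, h2⟩⟩
  · rw [← hconst]
    exact hC3.2.2.2
  · -- the lower bound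
    have h56 : (0.5 : ℝ) < ∏' i : ℕ, (1 - (1 / 3 : ℝ) ^ (i + 1)) := by
      rw [← hconst]
      have := hC3.2.2.2
      linarith
    have h1 := hten.eventually (lt_mem_nhds h56)
    obtain ⟨X₁, hX₁⟩ := Filter.eventually_atTop.1 h1
    refine ⟨c / 2, by positivity, max (max X₀ X₁) 3, fun X hX => ?_⟩
    have hXa : X₀ ≤ X := ((le_max_left _ _).trans (le_max_left _ _)).trans hX
    have hXb : X₁ ≤ X := ((le_max_right _ _).trans (le_max_left _ _)).trans hX
    have hXc : 3 ≤ X := (le_max_right _ _).trans hX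
    have g1 := hlow X hXa
    have g2 := hX₁ X hXb
    have hX1 : (3 : ℝ) ≤ X := by exact_mod_cast hXc
    have hl : 0 < Real.log X := Real.log_pos (by linarith)
    have hpos : (0 : ℝ) < ((Pool.Agent.Y703.CX.SS X).card : ℝ) := by
      refine lt_of_lt_of_le ?_ g1
      have : 0 < (Real.log X) ^ (-(1 / 2) : ℝ) := Real.rpow_pos_of_pos hl _
      positivity
    have hpos' : (0 : ℝ) < (((Finset.Icc 1 X).filter fun A => Squarefree A ∧ Class A).card : ℝ) := by
      rw [hcard X] at hpos
      exact hpos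
    rw [lt_div_iff₀ hpos'] at g2
    have g3 : (((Finset.Icc 1 X).filter fun A => Squarefree A ∧ Class A ∧
        Test A).card : ℝ) ≤
        (((Finset.Icc 1 X).filter fun A => Test A).card : ℝ) := by
      have : ((Finset.Icc 1 X).filter fun A => Squarefree A ∧ Class A ∧
        Test A).card ≤
        ((Finset.Icc 1 X).filter fun A => Test A).card := by
        refine Finset.card_le_card fun D hD => ?_
        rw [Finset.mem_filter] at hD ⊢
        exact ⟨hD.1, hD.2.2.2⟩
      exact_mod_cast this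
    rw [hcard X] at g1
    have g4 : (Real.log X) ^ (-(1 / 2) : ℝ) = 1 / Real.sqrt (Real.log X) := by
      rw [Real.rpow_neg hl.le, ← Real.sqrt_eq_rpow, inv_eq_one_div]
    rw [g4] at g1
    have g5 : c / 2 * X / Real.sqrt (Real.log X) = 0.5 * (c * X * (1 / Real.sqrt (Real.log X))) := by
      ring
    rw [g5]
    refine le_trans ?_ g3
    refine le_trans ?_ g2.le
    exact mul_le_mul_of_nonneg_left g1 (by norm_num)

end Pool.Agent.Results.MP_8e0b0b_nt.TestForNoPoints
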